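import Pool.Agent.W997.LN.Asym
import Pool.Agent.W131.LNDFS
import Pool.Agent.W924.LNMUX
import Pool.Agent.W762.LNLAY

/-!
# Depth and time in small space for programs which read few variables

The nodes of the layered network are the triples `(j, g, i)` with `j ≤ h` and `g, i < D = 2 ^ p`;
every node has a table with `k = 2 ^ ℓ` letters; the value of `(j + 1, g, i)` is the entry of its
table whose address is the bitwise sum modulo `2` of the values of the `D` nodes `(j, i, s)`.
Each level costs only depth `O(log N)`, where `N` is the number of letters, but it multiplies the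
time of a program with small space by a power of `N`:

* there are circuits of polynomial size and depth `O(h log N)`, programs of log size `O(h log N)`
  with at most `N ^ h` steps, and programs with at most `N ^ δ` steps and log size at most `N ^ δ`;
* but deterministic branching programs of log size at most `N ^ c` which read on average less than
  `N ^ (1 - δ)` letters need on average at least `N ^ (c h)` steps.

So for `h → ∞` as slowly as we please, circuits of depth `O(h log N)` are not simulated in
polynomial time and space `N ^ c` by such programs, and the simulation of depth `d` in time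
`2 ^ O(d)` and space `O(d)` is optimal, even if space `N ^ c` is allowed.  The finite form gives the
tradeoff: with space for `m` letters the time is at least of the order of `(D / m) ^ h`.

Proof idea.  Call a node live if the rest of the computation evaluates one of its parents before it
evaluates the node.  For most inputs there are never `m` live nodes no two of which have a common
parent (counting lemma, fibre and union bound).  If in an interval of time nodes `(j + 1, g, i)` for
`m` different `i` are evaluated, then for every `s` some node `(j, i, s)` is evaluated in this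
interval; so it can be cut into `D / m` intervals of the same kind for the level `j`.
-/

set_option autoImplicit false

namespace Pool.Agent.Results.MP_2af48a_lc.DepthTimeLaw

open Pool.Agent.W997.LN
open Pool.Agent.W997.DB (ByCircuit ByProgram HardReadsOrTime)

/-- (1) Let `m ≥ 1`, `K * m ≤ 2 ^ p`, `ℓ ≥ 1`, `s ≥ 1` with `(h + 1) * (2 ^ p) ^ 2 ≤ s ^ 2`, and
`2 ≤ γ * s`. Every deterministic branching program with at most `s ^ m` states which halts on all
inputs, and on a fraction of at least `1 / 2 + γ` of them outputs the lowest bit of the value of the
root of the layered network of height `h`, reads on average at least `γ / 2 * (2 ^ ℓ / s ^ 4)`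
different variables or makes on average at least `γ / 2 * K ^ h` steps.

(2) For every `δ > 0` there are `β`, `c > 0` and `p₀` such that for all `p ≥ p₀` and all
`1 ≤ h ≤ 2 ^ p`, with `ℓ = β * p` and `N` the number of variables (then `N ^ c ≤ 2 ^ p`), this bit

* is computed by Boolean circuits of size at most `N ^ 3` and depth at most `10 * h * log N`,
* is computed by a deterministic branching program of log size at most `3 * h * log N` which, on
  every input, stops after at most `N ^ h` steps and reads at most `N ^ δ` different variables,
* is computed by a deterministic branching program of log size at most `N ^ δ` in time `N ^ δ`,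
* but every deterministic branching program of log size at most `N ^ c` which halts on all inputs,
  with the right answer on a fraction of at least `1 / 2 + N ^ (-c)` of them, reads on average at
  least `N ^ (1 - δ)` different variables or makes on average at least `N ^ (c * h)` steps. -/
theorem result :
    (∀ h p ℓ : ℕ, 1 ≤ ℓ → ∀ m K : ℕ, 1 ≤ m → K * m ≤ 2 ^ p → ∀ s γ : ℝ, 1 ≤ s →
      ((h : ℝ) + 1) * (2 ^ p) ^ 2 ≤ s ^ 2 → 2 ≤ γ * s →
      HardReadsOrTime (rootBit h p ℓ) (m * Real.log s) γ (γ / 2 * (2 ^ ℓ / s ^ 4))
        (γ / 2 * (K : ℝ) ^ h)) ∧
    ∀ δ : ℝ, 0 < δ → ∃ β : ℕ, 1 ≤ β ∧ ∃ c : ℝ, 0 < c ∧ ∃ p₀ : ℕ, ∀ p : ℕ, p₀ ≤ p →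
      ∀ h : ℕ, 1 ≤ h → h ≤ 2 ^ p → ∀ ℓ : ℕ, ℓ = β * p → ∀ N : ℝ,
      N = Fintype.card (Var h p ℓ) → N ^ c ≤ 2 ^ p ∧
      ∀ f : Input h p ℓ → Bool, f = rootBit h p ℓ →
        ByCircuit f (N ^ 3) (10 * h * Real.log N) ∧
        ByProgram f (3 * h * Real.log N) (N ^ h) (N ^ δ) ∧
        ByProgram f (N ^ δ) (N ^ δ) (N ^ δ) ∧
        HardReadsOrTime f (N ^ c) (N ^ (-c)) (N ^ (1 - δ)) (N ^ (c * h)) :=
  ⟨fun _ _ _ hl m K hm hK s γ hs1 hs hγ => tradeoff hl m K hm hK s γ hs1 hs hγ,
    fun δ hδ => main Pool.Agent.W762.LNLAY.main Pool.Agent.W924.LNMUX.main
      Pool.Agent.W131.LNDFS.main δ hδ⟩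

end Pool.Agent.Results.MP_2af48a_lc.DepthTimeLaw
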