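import Pool.Agent.W994.NC.Final

/-!
# Nonuniform NC functions which need much nondeterministic space if the computations are short

The unrolled De Bruijn graph has the nodes `(j, g, i)` with a height `j ≤ h`, a word `g` of `p + 1`
letters `0, 1` and a letter `i`; the children of `(j + 1, g, i)` are `(j, shift g i, s)`, `s = 0, 1`.
Every inner node has a table `[k]^2 → [k]`, every leaf a value in `[k]`, and the value of a node is
the entry of its table at the values of its children. The function `f` is the lowest bit of the value
of a root.

For `h = q (p + 2)` and `k = 2^(a p)` this function has circuits of depth `q (log N)^2`, it is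
computed in space `q (log N)^2` and, by other programs, in time `N^δ`. We prove that
nondeterministic branching programs of log size at most `N^c` which have an accepting computation
with at most `N^θ` steps on every input with `f = true` (no other assumption: the programs are
arbitrary nondeterministic `k`-way branching programs, and acceptance is semantic) compute neither
`f` nor its complement, for every `θ < 1/4`.

Proof idea. A program as in the theorem gives a hierarchical dyadic decomposition of the time such
that for most intervals the set of the nodes whose relevant entries are not read in the interval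
has a small boundary (modules `Pool.Agent.W994.DE.*`; this uses private random alphabets, cutting
and gluing of computations of different inputs with the same states at the ends of the interval,
and an isolation argument). A word argument in the De Bruijn graph shows that in such a structure
the set of the nodes which are evaluated can climb only `g` times `p + 2` levels in each of `τ` dyadic
scales, so `g * q ≤ τ` for `2^τ` steps.
-/

set_option autoImplicit false

namespace Pool.Agent.Results.MP_2af48a_lc.NondetTimeSpaceNC

open Pool.Agent.W994.NC
open Pool.Agent.W997.DB (Word Var Input rootBit ByCircuit ByProgram)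

/-- Let `0 ≤ θ < 1/4` and `δ > 0`. There are `a, q₀, p₀` and `c > 0` such that for all `p ≥ p₀` and
`q₀ ≤ q ≤ 2^p`, with `h = q (p + 2)`, `ℓ = a p`, `N` the number of variables of the evaluation
problem for the unrolled De Bruijn graph of height `h` over the alphabet `2^ℓ`, and `f` the lowest
bit of the value of a root:

(1) `f` is computed by a Boolean circuit of size `N^2` and depth `q (log N)^2`;

(2) by a deterministic branching program of log size `q (log N)^2` and time `N^q`;

(3) by a deterministic branching program of log size `N^δ` and time `N^δ`;

(4) each nondeterministic branching program which computes `f` and has on each input with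
`f = true` an accepting computation of at most `N^θ` steps has a log size larger than `N^c`;

(5) and so has each such program for the complement of `f`. -/
theorem result (θ δ : ℝ) (hθ0 : 0 ≤ θ) (hθ : θ < 1 / 4) (hδ : 0 < δ) :
    ∃ (a q₀ p₀ : ℕ) (c : ℝ), 0 < c ∧ ∀ p : ℕ, p₀ ≤ p → ∀ q : ℕ, q₀ ≤ q → q ≤ 2 ^ p →
    ∀ h : ℕ, h = q * (p + 2) → ∀ ℓ : ℕ, ℓ = a * p →
    ∀ N : ℕ, N = Fintype.card (Var 2 p h (2 ^ ℓ)) →
    ∀ (g : Word 2 p) (i : Fin 2) (f : Input 2 p h (2 ^ ℓ) → Bool), f = rootBit g i →
      ByCircuit f ((N : ℝ) ^ 2) (q * Real.log N ^ 2) ∧
      ByProgram f (q * Real.log N ^ 2) ((N : ℝ) ^ q) ((N : ℝ) ^ δ) ∧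
      ByProgram f ((N : ℝ) ^ δ) ((N : ℝ) ^ δ) ((N : ℝ) ^ δ) ∧
      NondetHard f ((N : ℝ) ^ c) ((N : ℝ) ^ θ) ∧
      NondetHard (fun x => !f x) ((N : ℝ) ^ c) ((N : ℝ) ^ θ) :=
  final θ δ hθ0 hθ hδ

end Pool.Agent.Results.MP_2af48a_lc.NondetTimeSpaceNC
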