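import Pool.Agent.W953.SC.Hard
import Pool.Agent.W953.SC.Fam

/-!
# SC in NC: few NOT gates on few slices

A slice of the cube is the set of inputs with a given number of ones.

(A): non-uniform SC is contained in non-uniform NC if and only if narrow circuits that compute
monotone functions agree, on any `2 ^ t (w + 1)` consecutive slices, with shallow circuits with `t`
NOT gates, for every constant `w`; and if and only if they have equivalent shallow circuits with at
most `log n - K` NOT gates, for every constant `K`.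

(B): without any assumption, circuits of width polylogarithmic in `n` without NOT gates are given
such that for `U = 2 ^ t D (log D) ^ O(1)` and no `k` any circuit of depth less than `D` with at most
`t` NOT gates, of whatever size, agrees with them on the inputs with `k` to `k + U` ones.
-/

set_option autoImplicit false

namespace Pool.Agent.Results.MP_2af48a_lc.NotsOnSlices

open Pool.Agent.H540R2

variable {n : ℕ}

/-- the number of ones of an input -/
def ones (x : Fin n → Bool) : ℕ := (Finset.univ.filter (fun i => x i = true)).card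

/-- The circuit (which may have NOT gates) computes a monotone function. -/
def MonotoneFunction (C : Circuit n) : Prop :=
  ∀ x y : Fin n → Bool, (∀ i, x i ≤ y i) → C.eval x ≤ C.eval y

/-- non-uniform SC: circuits of polynomial size and polylogarithmic width -/
def SC (f : (n : ℕ) → (Fin n → Bool) → Bool) : Prop :=
  ∃ c : ℕ, ∀ n, ∃ C : Circuit n, (∀ x, C.eval x = f n x) ∧
    C.size ≤ n ^ c + c ∧ C.Layered (Nat.log 2 n ^ c + c)

/-- non-uniform NC: circuits of polynomial size and polylogarithmic depth -/
def NC (f : (n : ℕ) → (Fin n → Bool) → Bool) : Prop :=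
  ∃ c : ℕ, ∀ n, ∃ C : Circuit n, (∀ x, C.eval x = f n x) ∧
    C.size ≤ n ^ c + c ∧ C.depth ≤ Nat.log 2 n ^ c + c

/-- size at most `S` and width at most `(log S + 1) ^ a` -/
def Narrow (a S : ℕ) (C : Circuit n) : Prop :=
  C.size ≤ S ∧ C.Layered ((Nat.log 2 S + 1) ^ a)

/-- depth at most `(log S + 1) ^ c` and size at most `S ^ c` -/
def Shallow (c S : ℕ) (C : Circuit n) : Prop :=
  C.depth ≤ (Nat.log 2 S + 1) ^ c ∧ C.size ≤ S ^ c

/-- If a narrow circuit `C` computes a monotone function, then for all `k` and `t` some shallow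
circuit with at most `t` NOT gates agrees with it on the `2 ^ t (w + 1)` slices from `k` on. -/
def NotsAndSlices (w : ℕ) : Prop :=
  ∀ a, ∃ c, ∀ (S n : ℕ) (C : Circuit n), 2 ≤ S → n ≤ S → Narrow a S C → MonotoneFunction C →
    ∀ k t : ℕ, ∃ C' : Circuit n, C'.nots ≤ t ∧ Shallow c S C' ∧
      ∀ x, k ≤ ones x → ones x < k + 2 ^ t * (w + 1) → C'.eval x = C.eval x

/-- The narrow circuits that compute monotone functions have equivalent shallow circuits with at
most `log n - K` NOT gates. -/
def FewNots (K : ℕ) : Prop :=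
  ∀ a, ∃ c, ∀ (S n : ℕ) (C : Circuit n), 2 ≤ S → n ≤ S → Narrow a S C → MonotoneFunction C →
    ∃ C' : Circuit n, C'.nots ≤ Nat.log 2 n - K ∧ Shallow c S C' ∧ ∀ x, C'.eval x = C.eval x

/-- For every narrow circuit without NOT gates and all `k` some shallow circuit with at most `t n`
NOT gates agrees with it on the `w n + 1` slices from `k` on. -/
def SomeNotsSomeSlices (t w : ℕ → ℕ) : Prop :=
  ∀ a, ∃ c, ∀ (S n : ℕ) (C : Circuit n), 2 ≤ S → n ≤ S → Narrow a S C → C.Monotone →
    ∀ k : ℕ, ∃ C' : Circuit n, C'.nots ≤ t n ∧ Shallow c S C' ∧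
      ∀ x, k ≤ ones x → ones x ≤ k + w n → C'.eval x = C.eval x

/-- `2 ^ 42 (D + 1) (log (D + 1) + 6) ^ 8` -/
def q (D : ℕ) : ℕ := 2 ^ 42 * (D + 1) * (Nat.log 2 (D + 1) + 6) ^ 8

/-- (A) equivalent forms of SC ⊆ NC. (B) For `U = 2 ^ t q D < 2 ^ (D + 1)` and every `r` a circuit
without NOT gates of width at most `4 q D` and size at most `16 U q D` in `U + r` variables is given
such that no circuit with at most `t` NOT gates and depth less than `D` agrees with it, for some
`k ≤ r`, on the inputs with `k` to `k + U` ones. -/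
theorem result :
    List.TFAE [∀ f, SC f → NC f, ∀ w, NotsAndSlices w, ∀ K, FewNots K,
      ∃ t w : ℕ → ℕ, SomeNotsSomeSlices t w] ∧
    ∀ D t r U : ℕ, U = 2 ^ t * q D → U < 2 ^ (D + 1) →
      ∃ C : Circuit (U + r), C.Monotone ∧ C.Layered (4 * q D) ∧ C.size ≤ 16 * U * q D ∧
        ∀ k ≤ r, ∀ C' : Circuit (U + r), C'.nots ≤ t → C'.depth < D →
          ∃ x, k ≤ ones x ∧ ones x ≤ k + U ∧ C'.eval x ≠ C.eval x :=
  ⟨W953.SC.sc_tfae, fun D t r U hU hD => W953.SC.hard_slicesL D t r U hU hD⟩

end Pool.Agent.Results.MP_2af48a_lc.NotsOnSlices
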